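import Mathlib

set_option autoImplicit false

namespace Pool.Agent.Results.MP_2248a2_co.Counter

open SimpleGraph Finset

/-- adjacency of the circulant graph on 35 vertices with jumps 1, 7, 11, 16 -/
def fadj (x y : ℕ) : Bool :=
  let d := (x + 35 - y) % 35
  d == 1 || d == 34 || d == 7 || d == 28 || d == 11 || d == 24 || d == 16 || d == 19

def noInd : ℕ → List ℕ → ℕ → Bool
  | 0, _, _ => false
  | f + 1, l, k =>
    if l.length < k then true else
      match l with
      | [] => false
      | v :: t => noInd f (t.filter (fun u => !fadj v u)) (k - 1) && noInd f t k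

theorem noInd_sound : ∀ (f : ℕ) (l : List ℕ) (k : ℕ), noInd f l k = true →
    ∀ s : Finset ℕ, (∀ x ∈ s, x ∈ l) → (∀ x ∈ s, ∀ y ∈ s, x ≠ y → fadj x y = false) →
      s.card < k := by
  intro f
  induction f with
  | zero => intro l k h; simp [noInd] at h
  | succ f ih =>
    intro l k h s hs hi
    unfold noInd at h
    split_ifs at h with hl
    · have : s ⊆ l.toFinset := fun x hx => List.mem_toFinset.2 (hs x hx)
      exact lt_of_le_of_lt ((card_le_card this).trans (List.toFinset_card_le l)) hl
    · cases l with
      | nil => simp at h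
      | cons v t =>
        simp only [Bool.and_eq_true] at h
        by_cases hv : v ∈ s
        · have h1 := ih _ _ h.1 (s.erase v) (by
            intro x hx
            have hx' := mem_erase.1 hx
            have := hs x hx'.2
            rcases List.mem_cons.1 this with h' | h'
            · exact absurd h' hx'.1
            · refine List.mem_filter.2 ⟨h', ?_⟩
              simp [hi v hv x hx'.2 (Ne.symm hx'.1)])
            (fun x hx y hy hxy => hi x (mem_of_mem_erase hx) y (mem_of_mem_erase hy) hxy)
          rw [card_erase_of_mem hv] at h1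
          have : 0 < s.card := card_pos.2 ⟨v, hv⟩
          omega
        · refine ih _ _ h.2 s ?_ hi
          intro x hx
          rcases List.mem_cons.1 (hs x hx) with h' | h'
          · exact absurd (h' ▸ hx) hv
          · exact h'

theorem noInd9 : noInd 40 (List.range 35) 9 = true := by decide +kernel

theorem fadj_symm : ∀ x y : Fin 35, fadj x y = fadj y x := by decide +kernel

theorem tri_free : ∀ x y z : Fin 35, fadj x y = true → fadj y z = true → fadj x z = false := by
  decide +kernel

/-- the complement of the circulant graph -/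
def G : SimpleGraph (Fin 35) where
  Adj x y := x ≠ y ∧ fadj x y = false
  symm := ⟨fun x y h => ⟨h.1.symm, by rw [fadj_symm]; exact h.2⟩⟩
  loopless := ⟨fun x h => h.1 rfl⟩

theorem col_ok : ∀ x y : Fin 35, x ≠ y → fadj x y = false → x.val / 2 ≠ y.val / 2 := by
  decide +kernel

def col : G.Coloring ℕ := Coloring.mk (fun x => x.val / 2) (fun {x y} h => col_ok x y h.1 h.2)

theorem clique_le : G.cliqueNum ≤ 8 := by
  obtain ⟨s, hs⟩ := G.exists_isNClique_cliqueNum
  rw [← hs.card_eq]
  have := noInd_sound _ _ _ noInd9 (s.map ⟨Fin.val, Fin.val_injective⟩) (by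
    intro x hx
    obtain ⟨y, -, rfl⟩ := mem_map.1 hx
    exact List.mem_range.2 y.2) (by
    intro x hx y hy hxy
    obtain ⟨x', hx', rfl⟩ := mem_map.1 hx
    obtain ⟨y', hy', rfl⟩ := mem_map.1 hy
    have hne : x' ≠ y' := fun h => hxy (by rw [h])
    exact (hs.isClique hx' hy' hne).2)
  rw [card_map] at this
  omega

/-- every colour class has at most two vertices -/
theorem half (s : Finset (Fin 35)) (k : ℕ) (h : (G.induce (s : Set (Fin 35))).Colorable k) :
    s.card ≤ 2 * k := by
  obtain ⟨C⟩ := h
  by_contra hlt
  push Not at hlt
  have hc : Fintype.card (Fin k) * 2 < Fintype.card (s : Set (Fin 35)) := by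
    simp; omega
  obtain ⟨y, hy⟩ := Fintype.exists_lt_card_fiber_of_mul_lt_card (fun x => C x) hc
  obtain ⟨a, ha, b, hb, c, hc, hab, hac, hbc⟩ := two_lt_card.1 hy
  simp only [mem_filter, mem_univ, true_and] at ha hb hc
  have key : ∀ u v : (s : Set (Fin 35)), u ≠ v → C u = y → C v = y → fadj u.1 v.1 = true := by
    intro u v huv hu hv
    by_contra hf
    have : (G.induce (s : Set (Fin 35))).Adj u v :=
      ⟨fun h => huv (Subtype.ext h), by simpa using hf⟩
    exact C.valid this (hu.trans hv.symm)
  have := tri_free _ _ _ (key a b hab ha hb) (key b c hbc hb hc)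
  rw [key a c hac ha hc] at this
  exact absurd this (by simp)

theorem chi_half (s : Finset (Fin 35)) :
    s.card ≤ 2 * (G.induce (s : Set (Fin 35))).chromaticNumber.toNat :=
  half s _ (colorable_chromaticNumber_of_fintype _)

theorem chi_G : 18 ≤ G.chromaticNumber.toNat := by
  have h1 : G.Colorable G.chromaticNumber.toNat := colorable_chromaticNumber_of_fintype _
  have h2 : (G.induce ((univ : Finset (Fin 35)) : Set (Fin 35))).Colorable
      G.chromaticNumber.toNat := Colorable.of_hom (Embedding.induce _).toHom h1
  have := half _ _ h2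
  simp at this
  omega

theorem result : ∃ (n : ℕ) (G : SimpleGraph (Fin n)) (c : G.Coloring ℕ),
    ∀ s : Finset (Fin n),
      ((s.image c).card : ℤ) - ((G.induce (s : Set (Fin n))).chromaticNumber.toNat : ℤ) <
        (G.chromaticNumber.toNat : ℤ) - (G.cliqueNum : ℤ) := by
  refine ⟨35, G, col, fun s => ?_⟩
  have h1 := chi_half s
  have h2 : (s.image col).card ≤ s.card := card_image_le
  have h3 : (s.image col).card ≤ 18 := by
    have : s.image col ⊆ range 18 := by
      intro x hx
      obtain ⟨y, -, rfl⟩ := mem_image.1 hx
      have : col y = y.val / 2 := rfl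
      rw [this, mem_range]
      have := y.2
      omega
    simpa using card_le_card this
  have h4 := chi_G
  have h5 := clique_le
  omega

end Pool.Agent.Results.MP_2248a2_co.Counter
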